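import Mathlib

set_option autoImplicit false

namespace Pool.Agent.Results.MP_544047_al.Terminates

/-- The procedure terminates for every subgroup of finite index. -/
theorem result (H : Subgroup (FreeGroup (Fin 2))) [H.FiniteIndex] (y : FreeGroup (Fin 2))
    (C : ℕ → Set (FreeGroup (Fin 2) ⧸ H)) (h0 : C 0 = ∅) (_h1 : C 1 = {(y : _ ⧸ H)})
    (h2 : ∀ i, C (i + 2) = {z | ∃ (a : Fin 2) (x : _ ⧸ H), x ∈ C (i + 1) ∧
      (z = FreeGroup.of a • x ∨ z = (FreeGroup.of a)⁻¹ • x)} \ C i) :
    ∃ i, 2 ≤ i ∧ C i = ∅ := by
  have key : ∀ i k, Disjoint (C (i + 2 * k + 2)) (C i) := by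
    intro i k
    induction hn : i + 2 * k using Nat.strong_induction_on generalizing i k with
    | _ n ih =>
      subst hn
      rw [Set.disjoint_left]
      intro z hz hz'
      rw [h2] at hz
      obtain ⟨⟨a, x, hx, e⟩, hz2⟩ := hz
      rcases k with _ | k
      · exact hz2 hz'
      rcases i with _ | i
      · simp [h0] at hz'
      by_cases hxi : x ∈ C i
      · exact Set.disjoint_left.1 (ih _ (by omega) i (k + 1) rfl)
          (by convert hx using 2; omega) hxi
      · have : x ∈ C (i + 2) := by
          rw [h2]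
          refine ⟨⟨a, z, hz', ?_⟩, hxi⟩
          rcases e with rfl | rfl <;> simp
        exact Set.disjoint_left.1 (ih _ (by omega) (i + 2) k rfl)
          (by convert hx using 2; omega) this
  by_contra h
  push Not at h
  choose f hf using fun k : ℕ => h (2 * k + 2) (by omega)
  obtain ⟨a, b, hab, e⟩ := Finite.exists_ne_map_eq_of_infinite f
  wlog hlt : a < b generalizing a b
  · exact this b a hab.symm e.symm (by omega)
  refine Set.disjoint_left.1 (key (2 * a + 2) (b - a - 1)) ?_ (hf a)
  rw [e]
  convert hf b using 2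
  omega

end Pool.Agent.Results.MP_544047_al.Terminates
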